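import Pool.Agent.TH90.AB.Pure
import Mathlib.Algebra.Category.ModuleCat.EpiMono

/-!
# Abelian categories of Chow motives over finite fields: conservativity

The theorem is about an additive `ℚ`-linear symmetric tensor category `𝒜` with duals and
`End(1) = ℚ`, with a cohomology theory for which the trace formula of Lefschetz holds (`Cohomology`)
and an endomorphism `F` of the identity functor for which the cohomology is pure (`IsPure`).

Let `k = F_q` be a finite field. For the category `𝒜` of Chow motives over `k` with rational
coefficients, all this is classical: for `M = (X, p, n)` let `H^i(M) = p H^(i+2n)(X', ℚ_ℓ(n))`, where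
`X'` is `X` over an algebraic closure of `k`, and let `F` be `q^(-n)` times the Frobenius
endomorphism; the eigenvalues of `F` on `H^i(M)` are pure of weight `i` (Deligne), so the
characteristic polynomials are coprime for different degrees.

Theorem. Assume that the category of Chow motives over `k` is abelian. Then the `ℓ`-adic realisation
reflects monomorphisms and epimorphisms, and so it is conservative: a morphism of Chow motives which
induces an isomorphism on the `ℓ`-adic cohomology is an isomorphism. (The realisation is not assumed
to be exact.) For instance, a Chow motive without cohomology is zero.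

Proof. In an abelian tensor category with duals and with `End(1) = ℚ` traces are additive in short
exact sequences. By purity the Betti numbers are additive in short exact sequences. If `M ≠ 0`, then
the unit object is a subobject of `M ⊗ M^∨`, and so the cohomology of `M ⊗ M^∨` is not zero; by the
Kunneth formula the same holds for `M`. If `f` is injective on the cohomology, then the Betti numbers
of its source are at most those of its image, and so the kernel has no cohomology.
-/

open CategoryTheory MonoidalCategory Limits

universe u v w x

namespace Pool.Agent.Results.MP_6c4da4_ag.Conservativity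

open Pool.Agent.TH90.AB

/-- If `𝒜` is abelian, then a morphism which is injective (surjective) on the cohomology is a
monomorphism (an epimorphism); so the cohomology is conservative. -/
theorem result {𝒜 : Type u} [Category.{v} 𝒜] [Preadditive 𝒜] [Linear ℚ 𝒜] [HasFiniteProducts 𝒜]
    [MonoidalCategory 𝒜] [SymmetricCategory 𝒜] [MonoidalPreadditive 𝒜]
    [∀ X : 𝒜, HasRightDual X] (hne : 𝟙 (𝟙_ 𝒜) ≠ 0)
    (hunit : ∀ f : 𝟙_ 𝒜 ⟶ 𝟙_ 𝒜, ∃ q : ℚ, f = q • 𝟙 (𝟙_ 𝒜)) {K : Type w} [Field K] [CharZero K]
    {R : Cohomology.{u, v, w, x} 𝒜 K} {F : 𝟭 𝒜 ⟶ 𝟭 𝒜} (hF : IsPure R F) (hab : IsAbelian 𝒜)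
    {M N : 𝒜} (f : M ⟶ N) :
    ((∀ i, Function.Injective ((R.H i).map f).hom) → Mono f) ∧
    ((∀ i, Function.Surjective ((R.H i).map f).hom) → Epi f) ∧
    ((∀ i, IsIso ((R.H i).map f)) → IsIso f) := by
  have := hab.hasKernels
  have := hab.hasCokernels
  have : ∀ {X Y : 𝒜} (f : X ⟶ Y), IsIso (Abelian.coimageImageComparison f) := hab.comparison
  let : Abelian 𝒜 := Abelian.ofCoimageImageComparisonIsIso
  refine ⟨mono_of_coh hF hunit hne f, epi_of_coh hF hunit hne f, fun h => ?_⟩
  have h1 : ∀ i, Function.Bijective ((R.H i).map f).hom := fun i => by
    have := h i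
    exact ⟨(ModuleCat.mono_iff_injective _).1 inferInstance,
      (ModuleCat.epi_iff_surjective _).1 inferInstance⟩
  have := mono_of_coh hF hunit hne f fun i => (h1 i).1
  have := epi_of_coh hF hunit hne f fun i => (h1 i).2
  exact isIso_of_mono_of_epi f

end Pool.Agent.Results.MP_6c4da4_ag.Conservativity
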