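import Pool.Agent.TH133.AB.Nil

/-!
# If the category of Chow motives over a finite field is abelian, correspondences that are trivial in
# cohomology are nilpotent

Let `k` be a finite field and suppose that `A = CHMot(k)` is abelian. `A` is a rigid tensor category
with `End(1) = ℚ`. Take for `K` the field of `ℓ`-adic numbers (or an algebraic closure), for `ev` and
`odd` the `ℓ`-adic cohomology of motives in even and odd degrees, and for `frob` the Frobenius
endomorphism of motives (which commutes with all correspondences). All properties listed in
`Realisation` hold: Künneth formula, Lefschetz trace formula for the categorical trace, and
`weights` by Deligne's theorem, since the eigenvalues of Frobenius on the even (odd) cohomology of a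
motive have even (odd) weight.

Theorem. Every endomorphism of a Chow motive over `k` which is zero in cohomology is nilpotent.

Consequences: a motive with zero cohomology is zero; idempotents modulo homological equivalence
lift; every Chow motive has a Chow-Künneth decomposition into a sum of motives with cohomology in
one degree (Katz-Messing), and, applied to the (anti)symmetrisers of the tensor powers of the even
and odd parts, every Chow motive is finite-dimensional in the sense of Kimura and O'Sullivan. So a
positive answer to the question implies the Kimura-O'Sullivan conjecture over finite fields; in
particular, a Chow motive over a finite field that is not finite-dimensional would disprove it.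

Proof. (1) Traces are additive in short exact sequences of a rigid abelian tensor category. Apply
this to the powers of Frobenius, and take a linear combination of the resulting equations which is
`1` on the even and `0` on the odd cohomology: the dimensions of the even (odd) cohomology are
additive, although the cohomology functors are not known to be exact. (2) The unit object is simple.
If `M ≠ 0` has no cohomology then the evaluation `M' ⊗ M → 1` is an epimorphism, and `1` would have
no cohomology by (1). So non-zero motives have non-zero cohomology. (3) Let `f` be zero in
cohomology, and let the dimension of the cohomology of `I = im(f^n)`, `n ≥ 1`, be minimal. By (1) and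
(2), `f^n` induces an automorphism of `I`; it factors through `f^n : M → M` and so it is zero in
cohomology. Hence `I` has no cohomology, `I = 0`, `f^n = 0`.
-/

open CategoryTheory Limits MonoidalCategory

set_option autoImplicit false

universe v u w w'

namespace Pool.Agent.Results.MP_6c4da4_ag.Nilpotence

open Pool.Agent.TH133.AB

/-- Let `A` be a rigid abelian tensor category such that the unit object has only the idempotent
endomorphisms `0` and `1`, and let `R` be a realisation of `A` as motives over a finite field, with
coefficients in a field of characteristic `0`. Then every endomorphism `f` of an object of `A`
which is zero in even and odd cohomology is nilpotent. -/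
theorem result {A : Type u} [Category.{v} A] [Abelian A] [MonoidalCategory A]
    [MonoidalPreadditive A] [BraidedCategory A] [∀ X : A, HasRightDual X] {K : Type w} [Field K]
    [CharZero K] (R : Realisation.{v, u, w, w'} A K)
    (hconn : ∀ e : 𝟙_ A ⟶ 𝟙_ A, e ≫ e = e → e = 0 ∨ e = 𝟙 (𝟙_ A)) {M : A} (f : M ⟶ M)
    (hev : R.ev.map f = 0) (hodd : R.odd.map f = 0) : ∃ n : ℕ, iter f n = 0 :=
  R.nilpotent hconn f hev hodd

end Pool.Agent.Results.MP_6c4da4_ag.Nilpotence
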