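import Pool.Agent.TH90.AB.Main

/-!
# Abelian categories of Chow motives over finite fields: the ranks of the Chow groups

The theorem is about an additive `ℚ`-linear symmetric tensor category `𝒜` with duals and
`End(1) = ℚ`, with a cohomology theory for which the trace formula of Lefschetz holds (`Cohomology`)
and an endomorphism `F` of the identity functor which is the identity on the unit object and does
not have the eigenvalue `1` on `H^i(M)` for `i ≠ 0` (`Frobenius`).

Let `k = F_q` be a finite field. For the category `𝒜` of Chow motives over `k` with rational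
coefficients, all this is classical: for `M = (X, p, n)` let `H^i(M) = p H^(i+2n)(X', ℚ_ℓ(n))`, where
`X'` is `X` over an algebraic closure of `k`, and let `F` be `q^(-n)` times the Frobenius
endomorphism; the eigenvalues of `F` on `H^i(M)` have weight `i` (Deligne). For `M = (X, id, n)` we
have `Hom(1, M) = CH^n(X)_ℚ`, and `F.inv M` is the dimension of the space of Galois invariants (Tate
classes) in `H^(2n)(X', ℚ_ℓ(n))`.

Theorem. Assume that the category of Chow motives over `k` is abelian. Then, for all smooth
projective `X`, all `n` and all primes `ℓ` different from the characteristic, the dimension of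
`CH^n(X)_ℚ` is at most the dimension of the space of Galois invariants in `H^(2n)(X', ℚ_ℓ(n))`; in
particular it is finite, and at most the order of the pole of the zeta function `ζ(X, s)` at `s = n`.

(So if, moreover, the conjecture of Tate holds, then the cycle map is an isomorphism from
`CH^n(X) ⊗ ℚ_ℓ` to the space of Galois invariants. If it holds in the strong form, then rational and
numerical equivalence agree with rational coefficients; conversely the latter implies that the
category is abelian, by the theorem of Jannsen.)

Proof. In an abelian tensor category with duals and with `End(1) = ℚ` traces are additive in short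
exact sequences, and each non-zero `z : 1 ⟶ M` is a monomorphism. Let `C` be its cokernel. Then
`tr(F^j | M) = 1 + tr(F^j | C)` for all `j`, so the multiplicity `m(M)` of the eigenvalue `1` of `F` on
`H^0(M)` is `1 + m(C)`, and it follows by induction that the dimension of `Hom(1, M)` is at most
`m(M)`. Let `N` be the kernel of `F - 1` on `M`, and `I` its image. Then `Hom(1, M) = Hom(1, N)`, and
`m(N) = m(M) - m(I)` is at most the dimension of the space of invariants in `H^0(M)`, since `F - 1`
on `H^0(M)` factors through `H^0(I)`. (The cohomology is not assumed to be exact.)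
-/

open CategoryTheory MonoidalCategory Limits

universe u v w x

namespace Pool.Agent.Results.MP_6c4da4_ag.RankBound

open Pool.Agent.TH90.AB

/-- If `𝒜` is abelian, then the dimension of `Hom(1, M)` is at most the dimension of the space of
invariants of the Frobenius endomorphism on `H^0(M)`, for all `M`. -/
theorem result {𝒜 : Type u} [Category.{v} 𝒜] [Preadditive 𝒜] [Linear ℚ 𝒜] [HasFiniteProducts 𝒜]
    [MonoidalCategory 𝒜] [SymmetricCategory 𝒜] [MonoidalPreadditive 𝒜]
    [∀ X : 𝒜, HasRightDual X] (hne : 𝟙 (𝟙_ 𝒜) ≠ 0)
    (hunit : ∀ f : 𝟙_ 𝒜 ⟶ 𝟙_ 𝒜, ∃ q : ℚ, f = q • 𝟙 (𝟙_ 𝒜)) {K : Type w} [Field K] [CharZero K]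
    {R : Cohomology.{u, v, w, x} 𝒜 K} (F : Frobenius R) (hab : IsAbelian 𝒜) (M : 𝒜) :
    Module.rank ℚ (𝟙_ 𝒜 ⟶ M) ≤ F.inv M := by
  have := hab.hasKernels
  have := hab.hasCokernels
  have : ∀ {X Y : 𝒜} (f : X ⟶ Y), IsIso (Abelian.coimageImageComparison f) := hab.comparison
  let : Abelian 𝒜 := Abelian.ofCoimageImageComparisonIsIso
  exact rank_le_inv F hunit hne M

end Pool.Agent.Results.MP_6c4da4_ag.RankBound
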