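import Pool.Agent.TH133.AB.Tate

/-!
# Chow motives over a finite field: if the Tate conjecture holds and the category is abelian, then
# rational and homological equivalence coincide

Let `k` be a finite field and suppose that `A = CHMot(k)` is abelian. Take for `K` the field of
`ℓ`-adic numbers, for `ev` and `odd` the `ℓ`-adic cohomology of motives in even and odd degrees, and
for `frob` the Frobenius endomorphism of motives. All properties listed in `Realisation` hold
(Künneth formula, Lefschetz trace formula, Deligne's theorem on weights). The cohomology classes of a
motive `X` which are invariant under Frobenius lie in `H^0(X)` (the `X` of the form `(Y, p, m)`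
include all Tate twists), so that `R.Tate` is the Tate conjecture: `ℓ`-adic classes invariant under
Frobenius are linear combinations of algebraic classes. No semisimplicity of Frobenius is assumed.

Theorem. If `CHMot(k)` is abelian and the Tate conjecture holds for all smooth projective varieties
over `k`, then all correspondences which are homologically trivial are zero in the Chow groups with
rational coefficients: rational and homological equivalence coincide.

Conversely, if rational, homological and numerical equivalence coincide then `CHMot(k)` is abelian
(Jannsen). So for varieties satisfying the conjectures of Tate the question is equivalent to
Beilinson's conjecture on rational equivalence over finite fields.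

Proof. Let `z : 1 → N` be a non-zero cycle with zero class, and let the dimension of the cohomology
of `N` be minimal. If `L ≠ 0` is a subobject of `N` then `z` vanishes in `N/L` by minimality (the
dimension of cohomology is additive in short exact sequences, and non-zero objects have non-zero
cohomology, see `Nilpotence`), so `z` factors through `L`. Apply this to the image of another
non-zero `z' : 1 → N`. It follows that `z'` is a multiple of `z`, because `1` is simple, and so all
cycles on `N` have zero class. By the Tate conjecture Frobenius has no non-zero invariants in
the cohomology of `N`. But the multiplicity of the eigenvalue `1` of Frobenius is additive in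
`0 → 1 → N → N/1 → 0`, and so it is positive for `N`, a contradiction.
-/

open CategoryTheory Limits MonoidalCategory

set_option autoImplicit false

universe v u w w'

namespace Pool.Agent.Results.MP_6c4da4_ag.TateAndAbelian

open Pool.Agent.TH133.AB

/-- Let `A` be a rigid abelian tensor category such that the unit object has only the idempotent
endomorphisms `0` and `1`, and let `R` be a realisation of `A` as motives over a finite field, with
coefficients in a field of characteristic `0` and Frobenius on the unit object the identity. If the
Tate conjecture holds for `R`, then every morphism of `A` which is zero in even and odd cohomology
is zero. -/
theorem result {A : Type u} [Category.{v} A] [Abelian A] [MonoidalCategory A]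
    [MonoidalPreadditive A] [BraidedCategory A] [∀ X : A, HasRightDual X] {K : Type w} [Field K]
    [CharZero K] (R : Realisation.{v, u, w, w'} A K)
    (hconn : ∀ e : 𝟙_ A ⟶ 𝟙_ A, e ≫ e = e → e = 0 ∨ e = 𝟙 (𝟙_ A))
    (hfrob : R.frob (𝟙_ A) = 𝟙 (𝟙_ A)) (hTate : R.Tate) {X Y : A} (f : X ⟶ Y)
    (hev : R.ev.map f = 0) (hodd : R.odd.map f = 0) : f = 0 :=
  R.faithful hconn hfrob hTate f hev hodd

end Pool.Agent.Results.MP_6c4da4_ag.TateAndAbelian
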